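import Mathlib
import Pool.Agent.N943.NT.Asm
import Pool.Agent.N943.NT.All

/-!
# Graphs with degrees in `[3, D]` have exponentially many non-isomorphic spanning trees
-/

set_option autoImplicit false

namespace Pool.Agent.Results.MP_b146e7_co.FixedDegree

/-- Isomorphism of spanning trees of `G` (as abstract graphs) as an equivalence relation. -/
def isoSetoid {V : Type} (G : SimpleGraph V) :
    Setoid {T : SimpleGraph V // T ≤ G ∧ T.IsTree} where
  r S T := Nonempty (S.1 ≃g T.1)
  iseqv := {
    refl := fun _ => ⟨SimpleGraph.Iso.refl⟩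
    symm := fun ⟨e⟩ => ⟨e.symm⟩
    trans := fun ⟨e⟩ ⟨f⟩ => ⟨e.trans f⟩ }

/-- The number of isomorphism classes of spanning trees of `G`. -/
noncomputable def numTypes {V : Type} (G : SimpleGraph V) : ℕ :=
  Nat.card (Quotient (isoSetoid G))

/-- For every `D` there is `c > 0` such that every connected graph on `n` vertices all of whose
degrees lie in `[3, D]` (in particular every connected `d`-regular graph, `3 ≤ d ≤ D`) has at
least `exp (c n)` pairwise non-isomorphic spanning trees. -/
theorem result (D : ℕ) :
    ∃ c : ℝ, 0 < c ∧ ∀ (n : ℕ) (G : SimpleGraph (Fin n)), G.Connected →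
      (∀ v, 3 ≤ (G.neighborSet v).ncard ∧ (G.neighborSet v).ncard ≤ D) →
      Real.exp (c * n) ≤ (numTypes G : ℝ) :=
  N943.NT.target D

end Pool.Agent.Results.MP_b146e7_co.FixedDegree
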